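import Pool.Agent.Helper40.Ct.Goals

/-!
Packet PATHS of MP_034a88_co.
-/

set_option autoImplicit false

open Finset

namespace Pool.Agent.Helper31.Ct

open Pool.Agent.Helper40.Ct

lemma nodup_pair {α β : Type} (e : β) {X : List α} (hX : X.Nodup) :
    (X.map fun y => (y, e)).Nodup :=
  hX.map fun _ _ h => congrArg Prod.fst h

/-- **Packet PATHS**. -/
theorem paths : PATHS := by
  intro α β m E
  induction E with
  | nil =>
    intro X g _
    simp [Pf]
  | cons e es ih =>
    intro X g h
    cases es with
    | nil =>
      cases X with
      | nil => simp [Pf]
      | cons x xs =>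
        have e1 : Pf [e] g (x :: xs) = g ((x :: xs).map fun y => (y, e)) := by
          simp [Pf]
        rw [e1]
        apply h
        · intro q hq
          rw [List.mem_map] at hq
          obtain ⟨y, hy, rfl⟩ := hq
          exact ⟨hy, List.mem_singleton.2 rfl⟩
        · simp
        · intro hX _
          exact nodup_pair e hX
    | cons e' es =>
      have e1 : Pf (e :: e' :: es) g X = ∑ i ∈ range X.length, (-1) ^ (X.length - 1 - i) *
          Pf (e' :: es) (fun l => g ((X.take (i + 1)).map (fun y => (y, e)) ++ l)) (X.drop i) := by
        simp [Pf]
      rw [e1]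
      refine Finset.dvd_sum fun i hi => Dvd.dvd.mul_left ?_ _
      rw [Finset.mem_range] at hi
      apply ih
      intro l hl hlen hnd
      apply h
      · intro q hq
        rw [List.mem_append] at hq
        rcases hq with hq | hq
        · rw [List.mem_map] at hq
          obtain ⟨y, hy, rfl⟩ := hq
          exact ⟨List.mem_of_mem_take hy, List.mem_cons_self⟩
        · obtain ⟨h1, h2⟩ := hl q hq
          exact ⟨List.mem_of_mem_drop h1, List.mem_cons_of_mem _ h2⟩
      · rw [List.length_append, List.length_map, List.length_take]
        rw [List.length_drop] at hlen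
        simp only [List.length_cons] at hlen ⊢
        omega
      · intro hX hE
        rw [List.nodup_cons] at hE
        rw [List.nodup_append]
        refine ⟨nodup_pair e (hX.sublist (List.take_sublist _ _)),
          hnd (hX.sublist (List.drop_sublist _ _)) hE.2, ?_⟩
        intro q hq q' hq' hqq
        rw [List.mem_map] at hq
        obtain ⟨y, _, rfl⟩ := hq
        have := (hl q' hq').2
        rw [← hqq] at this
        exact hE.1 this

end Pool.Agent.Helper31.Ct
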